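import Pool.Agent.Helper95.HV.Stmts
import Pool.Agent.Helper33.PM.Com

/-! Row PIZ. -/

set_option autoImplicit false

namespace Pool.Agent.Helper17.HV

open MeasureTheory Filter Pool.Agent.Helper95.PW Pool.Agent.Helper95.LN Pool.Agent.Helper95.CF
  Pool.Agent.Helper95.HV

theorem piz_nrl {C2 C3 W r κ M N : ℝ} (hC2 : 0 < C2) (hC3 : 0 < C3) (hW : 0 < W) (hM : 0 < M)
    (hr : 0 < r) (hκ0 : 0 ≤ κ) (hκ : κ ≤ C3 * (M * W))
    (hN : N ≤ C2 * (M + M ^ (2 / 5 : ℝ) * (κ * (2 * r) ^ 2) ^ (3 / 5 : ℝ))) :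
    N ≤ C2 * (1 + (4 * C3) ^ (3 / 5 : ℝ)) * (M * (1 + (W * r ^ 2) ^ (3 / 5 : ℝ))) := by
  have h1 : (κ * (2 * r) ^ 2) ^ (3 / 5 : ℝ) ≤ ((4 * C3) * (M * (W * r ^ 2))) ^ (3 / 5 : ℝ) := by
    apply Real.rpow_le_rpow (by positivity) _ (by norm_num)
    calc κ * (2 * r) ^ 2 ≤ (C3 * (M * W)) * (2 * r) ^ 2 :=
          mul_le_mul_of_nonneg_right hκ (by positivity)
      _ = (4 * C3) * (M * (W * r ^ 2)) := by ring
  have h1' := Real.mul_rpow (x := 4 * C3) (y := M * (W * r ^ 2)) (z := (3 / 5 : ℝ)) (by positivity)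
    (by positivity)
  have h1'' := Real.mul_rpow (x := M) (y := W * r ^ 2) (z := (3 / 5 : ℝ)) hM.le (by positivity)
  rw [h1', h1''] at h1
  have hMM : M ^ (2 / 5 : ℝ) * M ^ (3 / 5 : ℝ) = M := by
    rw [← Real.rpow_add hM]
    norm_num
  have h0 : 0 ≤ M ^ (2 / 5 : ℝ) := by positivity
  have h2 : 0 ≤ (4 * C3) ^ (3 / 5 : ℝ) := by positivity
  have h3 : 0 ≤ (W * r ^ 2) ^ (3 / 5 : ℝ) := by positivity
  obtain ⟨A, hA⟩ : ∃ A : ℝ, A = (4 * C3) ^ (3 / 5 : ℝ) := ⟨_, rfl⟩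
  obtain ⟨T, hT⟩ : ∃ T : ℝ, T = (W * r ^ 2) ^ (3 / 5 : ℝ) := ⟨_, rfl⟩
  rw [← hA, ← hT] at h1
  rw [← hA] at h2
  rw [← hT] at h3
  rw [← hA, ← hT]
  have h4 : M ^ (2 / 5 : ℝ) * (κ * (2 * r) ^ 2) ^ (3 / 5 : ℝ) ≤ A * (M * T) := by
    calc M ^ (2 / 5 : ℝ) * (κ * (2 * r) ^ 2) ^ (3 / 5 : ℝ)
        ≤ M ^ (2 / 5 : ℝ) * (A * (M ^ (3 / 5 : ℝ) * T)) := mul_le_mul_of_nonneg_left h1 h0
      _ = A * ((M ^ (2 / 5 : ℝ) * M ^ (3 / 5 : ℝ)) * T) := by ring
      _ = A * (M * T) := by rw [hMM]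
  calc N ≤ C2 * (M + M ^ (2 / 5 : ℝ) * (κ * (2 * r) ^ 2) ^ (3 / 5 : ℝ)) := hN
    _ ≤ C2 * (M + A * (M * T)) := by
        apply mul_le_mul_of_nonneg_left _ hC2.le
        linarith
    _ ≤ C2 * ((1 + A) * (M * (1 + T))) := by
        apply mul_le_mul_of_nonneg_left _ hC2.le
        have e1 : 0 ≤ M * T := mul_nonneg hM.le h3
        have e2 : 0 ≤ A * M := mul_nonneg h2 hM.le
        have e3 : (1 + A) * (M * (1 + T)) = M + A * (M * T) + M * T + A * M := by ring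
        rw [e3]
        linarith
    _ = _ := by ring

/-- `QM + nucR sq ≤ 1` -/
theorem piz_Q (hQ : ST_QHM) (hI : ST_INTM) {n M : ℕ} (X : Fin M → R3) (Z : Fin M → ℝ) (E : ℝ)
    (u : Wf n) (hu : Sm u) (hE : E + nucR X Z ≤ 0) (h1 : Helper95.PW.sq u ≤ 2)
    (h2 : resM X Z E u ≤ 1 / 2) : QM X Z u + nucR X Z * Helper95.PW.sq u ≤ 1 := by
  have h := innm_Q_le hQ hI X Z E u hu
  have h3 : (E + nucR X Z) * Helper95.PW.sq u ≤ 0 := mul_nonpos_of_nonpos_of_nonneg hE (com_sq_nonneg u)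
  have h4 : (E + nucR X Z) * Helper95.PW.sq u = E * Helper95.PW.sq u + nucR X Z * Helper95.PW.sq u := by ring
  rw [h4] at h3
  linarith

theorem PIZ (h1 : ST_MIZ) (h2 : ST_MLZ) (h3 : ST_NRL) (h4 : ST_TUPZ) (h5 : ST_FLD)
    (h6 : ST_APXM) (h7 : ST_LMTM) (h8 : ST_QHM) (h9 : ST_INTM) (h10 : ST_POTB) : ST_PIZ := by
  intro d hd hd1
  obtain ⟨C1, hC1, H1⟩ := h1 d hd hd1
  obtain ⟨C6, hC6, H6⟩ := h2 d hd hd1
  obtain ⟨C2, hC2, H2⟩ := h3
  obtain ⟨C3, hC3, H3⟩ := h4 d hd hd1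
  obtain ⟨K, hK, H5⟩ := h5
  have hK0 : 0 < K := by linarith
  obtain ⟨C4, hC4⟩ : ∃ C4 : ℝ, C4 = C2 * (1 + (4 * C3) ^ (3 / 5 : ℝ)) := ⟨_, rfl⟩
  have hC4pos : 0 < C4 := by rw [hC4]; positivity
  obtain ⟨C7, hC7⟩ : ∃ C7 : ℝ, C7 = 1 + C1 * (1 + C3) := ⟨_, rfl⟩
  have hC7pos : 0 < C7 := by rw [hC7]; positivity
  obtain ⟨C8, hC8⟩ : ∃ C8 : ℝ, C8 = C6 * (2 + C3 + C6 * (1 + C3)) := ⟨_, rfl⟩
  have hC8pos : 0 < C8 := by rw [hC8]; positivity
  refine ⟨C1 * K ^ 4 * (C4 * (C7 + C4 + C8)), by positivity, ?_⟩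
  intro z E r ν n M X Z φ G m hD hM1 hE hG hr hrd hν
  obtain ⟨u, hu⟩ := h6 n M X Z E φ G hG
  obtain ⟨l1, l2, l3⟩ := h7 n M X Z E φ G u hG hu
  obtain ⟨hsm, _, _, ⟨M0, hM0⟩, hres⟩ := hu
  have hz1 := hD.z1
  have hz0 : 0 < z := by linarith
  have hMr : (1:ℝ) ≤ M := by exact_mod_cast hM1
  have hMp : (0:ℝ) < M := by linarith
  obtain ⟨W, hW⟩ : ∃ W : ℝ, W = z ^ (7 / 3 : ℝ) := ⟨_, rfl⟩
  have hWpos : 0 < W := by rw [hW]; positivity
  obtain ⟨Y, hY⟩ : ∃ Y : ℝ, Y = z ^ (13 / 3 : ℝ) := ⟨_, rfl⟩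
  have hYpos : 0 < Y := by rw [hY]; positivity
  have hWY : z ^ 2 * W = Y := by
    rw [hW, hY, ← Real.rpow_natCast z 2, ← Real.rpow_add hz0]
    norm_num
  have hzW : z ^ 2 ≤ W := by
    rw [hW, ← Real.rpow_natCast z 2]
    exact Real.rpow_le_rpow_of_exponent_le hz1 (by norm_num)
  rw [← hW] at hν
  rw [← hW, ← hY]
  have hνpos : 0 < ν := by
    rw [hν]
    positivity
  have hMW : 1 ≤ (M:ℝ) * W := by
    have e1 : (1:ℝ) ≤ z ^ 2 := one_le_pow₀ hz1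
    have e2 : (1:ℝ) ≤ W := e1.trans hzW
    exact one_le_mul_of_one_le_of_one_le hMr e2
  have hMW0 : 0 < (M:ℝ) * W := by positivity
  have hnz : (n:ℝ) ≤ z * M := by
    rw [← hD.nuc.2]
    calc ∑ j, Z j ≤ ∑ _j : Fin M, z := Finset.sum_le_sum fun j _ => hD.le j
      _ = z * M := by rw [Finset.sum_const, Finset.card_univ, Fintype.card_fin, nsmul_eq_mul,
          mul_comm]
  obtain ⟨C9, hC9, H9⟩ := h10 z d hz0.le hd
  have F : ∀ m, Scale (gN X m r) K r ∧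
      (∀ j y, nr (y - X j) < r → ∀ i, pd i (gN X m r) y = if i = m then 1 else 0) ∧
      (∀ y, (∀ j, 2 * r < nr (y - X j)) → ∀ i, pd i (gN X m r) y = 0) := fun m => by
    obtain ⟨f1, _, f3, f4, _⟩ := H5 M X d r r m hd hD.sep hr le_rfl hrd
    exact ⟨f1, f3, f4⟩
  obtain ⟨P, hP⟩ : ∃ P : ℝ, P = C9 * (C3 * (M * W) + n * (M : ℝ) ^ (2 / 3 : ℝ)) := ⟨_, rfl⟩
  have hPpos : 0 ≤ P := by rw [hP]; positivity
  obtain ⟨C', hC', HI⟩ := H1 z K r (C3 * (M * W) + P + 2 * |E| + 1 + |M0|) E n M X Z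
    (fun m => gN X m r) (Nb X (2 * r)) hD hG.low hK hr (by linarith) (fun m => (F m).1)
    (fun m => (F m).2.1)
    (fun m y hy i => (F m).2.2 y (fun j => by have := hy j; linarith) i)
    (innm_nb_closed X (2 * r))
    (fun m y hy i => (F m).2.2 y (fun j => by
      by_contra hc
      exact hy ⟨j, not_lt.1 hc⟩) i)
  obtain ⟨C'', hC'', HL⟩ := H6 z E (C3 * (M * W)) n M X Z hD hM1
  have hev : ∀ᶠ j in atTop, Helper95.PW.sq (fun s => Pg (gN X m r) (u j s)) ^ 2 ≤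
      C1 * K ^ 4 * (C4 * (C7 + C4 + C8)) * (M : ℝ) ^ 2 * (ν * (W / r ^ 2 + ν / r ^ 4 + Y)) +
        (C1 * K ^ 4 * (C4 * (M * ν)) * C'' + C') * Real.sqrt (resM X Z E (u j)) := by
    have e1 : ∀ᶠ j in atTop, Helper95.PW.sq (u j) ≤ 2 :=
      l1.eventually_le_const (by norm_num : (1:ℝ) < 2)
    have e2 : ∀ᶠ j in atTop, resM X Z E (u j) ≤ 1 / 2 :=
      hres.eventually_le_const (by norm_num : (0:ℝ) < 1 / 2)
    filter_upwards [e1, e2] with j hj1 hj2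
    have hQ := piz_Q h8 h9 X Z E (u j) (hsm j).1 hE hj1 hj2
    have hQ2 := innm_Q_le h8 h9 X Z E (u j) (hsm j).1
    obtain ⟨t1, t2⟩ := H3 z E n M X Z (u j) hD hM1 hE (hsm j).1 (hsm j).2 hj1 hj2
    rw [← hW] at t1 t2
    have p0 := com_sq_nonneg (u j)
    have p1 := com_kin_nonneg (u j)
    have p2 := com_pair_nonneg (u j)
    have p3 : 0 ≤ one (pot X Z) (u j) :=
      com_one_nonneg _ (innm_pot_nonneg X Z hD.nuc.1) _
    have p4 : 0 ≤ one (ind (Nb X (2 * r))) (u j) := com_one_nonneg _ (innm_ind_nonneg _) _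
    have hN : one (ind (Nb X (2 * r))) (u j) ≤ C4 * (M * ν) := by
      refine (innm_ind_le X (2 * r) (u j) (hsm j).1).trans ?_
      have := piz_nrl hC2 hC3 hWpos hMp hr p1 t1
        (H2 n M X d (2 * r) (u j) hd hD.sep (by linarith) (by linarith) (hsm j).1 (hsm j).2 hj1)
      rw [← hC4, ← hν] at this
      exact this
    have hpot : one (pot X Z) (u j) ≤ P := by
      have := H9 n M X Z (u j) hM1 hD.sep hD.nuc.1 hD.le (hsm j).1 hj1
      rw [hP]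
      refine this.trans ?_
      apply mul_le_mul_of_nonneg_left _ hC9.le
      linarith
    have hEs : E * Helper95.PW.sq (u j) ≤ 2 * |E| := by
      have a1 := le_abs_self E
      have a2 := abs_nonneg E
      nlinarith
    have hpair : pair (u j) ≤ P + 2 * |E| + 1 := by
      have : QM X Z (u j) = kin (u j) + pair (u j) - one (pot X Z) (u j) := rfl
      linarith
    have hMa := le_abs_self M0
    have hMb := abs_nonneg M0
    have hMc := hM0 j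
    have hEa := abs_nonneg E
    have hYY : ∀ c : ℝ, 0 ≤ c → kin (u j) + YY c d z X Z (u j) ≤ (1 + c * (1 + C3)) * (M * W) := by
      intro c hc
      have a1 : z ^ 2 * M + z * one (near1 X d) (u j) ≤ (1 + C3) * (M * W) := by
        have : z ^ 2 * M ≤ W * M := mul_le_mul_of_nonneg_right hzW hMp.le
        linarith
      have a2 := mul_le_mul_of_nonneg_left a1 hc
      have a3 : kin (u j) + YY c d z X Z (u j) = QM X Z (u j) + nucR X Z * Helper95.PW.sq (u j) +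
          c * (z ^ 2 * M + z * one (near1 X d) (u j)) := by
        unfold YY
        ring
      rw [a3]
      calc _ ≤ 1 + c * ((1 + C3) * (M * W)) := by linarith
        _ ≤ M * W + c * ((1 + C3) * (M * W)) := by linarith
        _ = _ := by ring
    have hsr := Real.sqrt_nonneg (resM X Z E (u j))
    have hB1 : ∀ s : ℝ, 0 < s → s ≤ d →
        ∑ i, Z i * one (fun y => mor s (y - X i)) (u j) ≤
          C8 * (M * Y) + C'' * Real.sqrt (resM X Z E (u j)) := by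
      intro s hs hsd
      refine (HL (u j) (hsm j).1 hj1 t1 s hs hsd).trans ?_
      apply add_le_add _ le_rfl
      have b1 := hYY C6 hC6.le
      have b2 : z * kin (u j) ≤ C3 * (z * (M * W)) := by
        calc z * kin (u j) ≤ z * (C3 * (M * W)) := mul_le_mul_of_nonneg_left t1 hz0.le
          _ = _ := by ring
      have b3 : z * n ≤ z * (M * W) := by
        apply mul_le_mul_of_nonneg_left _ hz0.le
        have : z * M ≤ W * M := by
          apply mul_le_mul_of_nonneg_right _ hMp.le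
          have : z * 1 ≤ z * z := mul_le_mul_of_nonneg_left hz1 hz0.le
          nlinarith
        linarith
      have b4 : (1 + C6 * (1 + C3)) * (M * W) ≤ (1 + C6 * (1 + C3)) * (z * (M * W)) := by
        apply mul_le_mul_of_nonneg_left _ (by positivity)
        exact le_mul_of_one_le_left hMW0.le hz1
      have b5 : z * kin (u j) + z * n + YY C6 d z X Z (u j) ≤
          (2 + C3 + C6 * (1 + C3)) * (z * (M * W)) := by
        have e : (2 + C3 + C6 * (1 + C3)) * (z * (M * W)) = C3 * (z * (M * W)) + z * (M * W) +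
            (1 + C6 * (1 + C3)) * (z * (M * W)) := by ring
        rw [e]
        linarith
      calc C6 * z * (z * kin (u j) + z * n + YY C6 d z X Z (u j)) ≤
            C6 * z * ((2 + C3 + C6 * (1 + C3)) * (z * (M * W))) :=
            mul_le_mul_of_nonneg_left b5 (by positivity)
        _ = C6 * (2 + C3 + C6 * (1 + C3)) * (M * (z ^ 2 * W)) := by ring
        _ = C8 * (M * Y) := by rw [hWY, hC8]
    have hb := HI (u j) (hsm j).1 (hsm j).2 hj1 (by linarith) (by linarith) (by linarith)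
      (by linarith) (by linarith) (C8 * (M * Y) + C'' * Real.sqrt (resM X Z E (u j))) d
      (by positivity) hd hB1 m
    refine hb.trans ?_
    have c0 := hYY C1 hC1.le
    rw [← hC7] at c0
    have c1 : (kin (u j) + YY C1 d z X Z (u j)) / r ^ 2 ≤ C7 * (M * W) / r ^ 2 :=
      div_le_div_of_nonneg_right c0 (by positivity)
    have c2 : one (ind (Nb X (2 * r))) (u j) / r ^ 4 ≤ C4 * (M * ν) / r ^ 4 :=
      div_le_div_of_nonneg_right hN (by positivity)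
    obtain ⟨w1, hw1⟩ : ∃ w1 : ℝ, w1 = W / r ^ 2 := ⟨_, rfl⟩
    obtain ⟨w2, hw2⟩ : ∃ w2 : ℝ, w2 = ν / r ^ 4 := ⟨_, rfl⟩
    have hw1p : 0 ≤ w1 := by rw [hw1]; positivity
    have hw2p : 0 ≤ w2 := by rw [hw2]; positivity
    have c1' : (kin (u j) + YY C1 d z X Z (u j)) / r ^ 2 ≤ C7 * (M * w1) := by
      refine c1.trans (le_of_eq ?_)
      rw [hw1]; ring
    have c2' : one (ind (Nb X (2 * r))) (u j) / r ^ 4 ≤ C4 * (M * w2) := by
      refine c2.trans (le_of_eq ?_)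
      rw [hw2]; ring
    rw [← hw1, ← hw2]
    obtain ⟨q, hq⟩ : ∃ q : ℝ, q = Real.sqrt (resM X Z E (u j)) := ⟨_, rfl⟩
    rw [← hq] at hsr
    rw [← hq]
    have hbr : (kin (u j) + YY C1 d z X Z (u j)) / r ^ 2 +
        one (ind (Nb X (2 * r))) (u j) / r ^ 4 + (C8 * (M * Y) + C'' * q) ≤
        (C7 + C4 + C8) * (M * (w1 + w2 + Y)) + C'' * q := by
      have e : (C7 + C4 + C8) * (M * (w1 + w2 + Y)) = C7 * (M * w1) + C4 * (M * w2) +
          C8 * (M * Y) + (C7 * (M * (w2 + Y)) + C4 * (M * (w1 + Y)) + C8 * (M * (w1 + w2))) := by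
        ring
      have e2 : 0 ≤ C7 * (M * (w2 + Y)) + C4 * (M * (w1 + Y)) + C8 * (M * (w1 + w2)) := by
        positivity
      rw [e]
      linarith
    have hbr0 : 0 ≤ (C7 + C4 + C8) * (M * (w1 + w2 + Y)) + C'' * q := by positivity
    have hmain : one (ind (Nb X (2 * r))) (u j) * ((kin (u j) + YY C1 d z X Z (u j)) / r ^ 2 +
        one (ind (Nb X (2 * r))) (u j) / r ^ 4 + (C8 * (M * Y) + C'' * q)) ≤
        (C4 * (M * ν)) * ((C7 + C4 + C8) * (M * (w1 + w2 + Y)) + C'' * q) :=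
      (mul_le_mul_of_nonneg_left hbr p4).trans (mul_le_mul_of_nonneg_right hN hbr0)
    calc C1 * K ^ 4 * (one (ind (Nb X (2 * r))) (u j) *
          ((kin (u j) + YY C1 d z X Z (u j)) / r ^ 2 +
            one (ind (Nb X (2 * r))) (u j) / r ^ 4 + (C8 * (M * Y) + C'' * q))) + C' * q
        ≤ C1 * K ^ 4 * ((C4 * (M * ν)) * ((C7 + C4 + C8) * (M * (w1 + w2 + Y)) + C'' * q)) +
            C' * q := by
          apply add_le_add _ le_rfl
          exact mul_le_mul_of_nonneg_left hmain (by positivity)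
      _ = C1 * K ^ 4 * (C4 * (C7 + C4 + C8)) * (M : ℝ) ^ 2 * (ν * (w1 + w2 + Y)) +
            (C1 * K ^ 4 * (C4 * (M * ν)) * C'' + C') * q := by ring
  have lim1 : Tendsto (fun j => Helper95.PW.sq (fun s => Pg (gN X m r) (u j s)) ^ 2) atTop
      (nhds (Helper95.PW.sq (PG (gN X m r) φ G) ^ 2)) :=
    (l3 _ (F m).1.sm (F m).1.cs).pow 2
  have lim2 : Tendsto (fun j => C1 * K ^ 4 * (C4 * (C7 + C4 + C8)) * (M : ℝ) ^ 2 *
      (ν * (W / r ^ 2 + ν / r ^ 4 + Y)) +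
        (C1 * K ^ 4 * (C4 * (M * ν)) * C'' + C') * Real.sqrt (resM X Z E (u j))) atTop
      (nhds (C1 * K ^ 4 * (C4 * (C7 + C4 + C8)) * (M : ℝ) ^ 2 *
        (ν * (W / r ^ 2 + ν / r ^ 4 + Y)) +
          (C1 * K ^ 4 * (C4 * (M * ν)) * C'' + C') * Real.sqrt 0)) :=
    tendsto_const_nhds.add ((hres.sqrt).const_mul _)
  have hfin := le_of_tendsto_of_tendsto lim1 lim2 hev
  rw [Real.sqrt_zero, mul_zero, add_zero] at hfin
  exact hfin

end Pool.Agent.Helper17.HV
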